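import Pool.Agent.Helper40.Ct.Goals

/-!
# MP_034a88_co, packet APPR: approximate solutions on the grid
-/

set_option autoImplicit false

open Finset

namespace Pool.Agent.Helper67.Ct

open Pool.Agent.Helper40.Ct

variable {d r M : ℕ}

/-- a point of the grid as a vector of integers -/
def gr (p : Fin d → Fin (M + 1)) : Fin d → ℤ := fun k => ((p k : ℕ) : ℤ)

/-- the grid point of a vector of integers -/
def pt (M : ℕ) (y : Fin d → ℤ) : Fin d → Fin (M + 1) := fun k =>
  ⟨min (y k).toNat M, Nat.lt_succ_of_le (min_le_right _ _)⟩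

theorem gr_pt {y : Fin d → ℤ} (h : ∀ k, 0 ≤ y k ∧ y k ≤ M) : gr (pt M y) = y := by
  funext k
  obtain ⟨h1, h2⟩ := h k
  simp only [gr, pt]
  rw [min_eq_left (by omega)]
  omega

theorem exists_small {I : Type} [Finite I] [Nonempty I] (f : I → ℝ) (hf : ∀ i, 0 < f i) :
    ∃ η : ℝ, 0 < η ∧ ∀ i, η ≤ f i := by
  obtain ⟨i, hi⟩ := Finite.exists_min f
  exact ⟨f i, hf i, hi⟩

/-- the field on the doubled grid -/
noncomputable def uu (M : ℕ) (u0 : (Fin d → Fin (M + 1)) × El d r → (Fin d → ℝ)) :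
    (Fin d → ℤ) × Fin 2 → El d r → (Fin d → ℝ) := fun q e =>
  if q.2 = 0 then u0 (pt M q.1, e) else gf q.1

theorem grid_frd (hE : GRE) (x : Fin d → Fin M) (σ : Equiv.Perm (Fin d)) {y : Fin d → ℤ}
    (hy : y ∈ frd (corner x) σ) (k : Fin d) : 0 ≤ y k ∧ y k ≤ M := by
  have h := (hE d (corner x) σ).2.2 y hy k
  have h1 : (x k : ℕ) < M := (x k).2
  simp only [corner] at h
  constructor
  · exact le_trans (by positivity) h.1
  · have : ((x k : ℕ) : ℤ) + 1 ≤ M := by exact_mod_cast h1
    exact le_trans h.2 this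

theorem gen_frd (hX : GRX) (hE : GRE) (hd : 1 ≤ d) (x : Fin d → Fin M)
    (σ : Equiv.Perm (Fin d)) (u0 : (Fin d → Fin (M + 1)) × El d r → (Fin d → ℝ))
    (B0 : Finset (Fin d → ℝ)) (hB0 : ∀ p : Fin d → Fin (M + 1), gf (gr p) ∈ B0)
    (hu0 : ∀ (A : Finset ((Fin d → Fin (M + 1)) × El d r)) (B : Finset (Fin d → ℝ)), B ⊆ B0 →
      A.card + B.card ≤ d → ∀ (c : (Fin d → Fin (M + 1)) × El d r → ℝ) (c' : (Fin d → ℝ) → ℝ),
        ∑ i ∈ A, c i • u0 i + ∑ b ∈ B, c' b • b = 0 → ∀ i ∈ A, c i = 0)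
    (l : List ((Fin d → ℤ) × Fin 2)) (hl : ∀ q ∈ l, q.1 ∈ frd (corner x) σ) :
    Gen (uu M u0) l := by
  classical
  intro A c hA hcard hc0 hc1 hsum
  set A0 := A.filter fun q => q.1.2 = 0 with hA0
  set A1 := A.filter fun q => ¬ q.1.2 = 0 with hA1
  have hgrid : ∀ q ∈ A, ∀ k, 0 ≤ q.1.1 k ∧ q.1.1 k ≤ M := fun q hq =>
    grid_frd hE x σ (hl _ (hA q hq))
  have hcards : A0.card + A1.card = A.card := Finset.card_filter_add_card_filter_not _
  -- the map to the index set of `u0`
  let φ : ((Fin d → ℤ) × Fin 2) × El d r → (Fin d → Fin (M + 1)) × El d r :=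
    fun q => (pt M q.1.1, q.2)
  have hφ : Set.InjOn φ A0 := by
    intro q hq q' hq' h
    have h1 := Finset.mem_filter.1 (Finset.mem_coe.1 hq)
    have h2 := Finset.mem_filter.1 (Finset.mem_coe.1 hq')
    have e1 : pt M q.1.1 = pt M q'.1.1 := (congrArg Prod.fst h : (φ q).1 = (φ q').1)
    have e2 : q.2 = q'.2 := (congrArg Prod.snd h : (φ q).2 = (φ q').2)
    have e3 : q.1.1 = q'.1.1 := by
      rw [← gr_pt (hgrid q h1.1), ← gr_pt (hgrid q' h2.1), e1]
    have e4 : q.1.2 = q'.1.2 := h1.2.trans h2.2.symm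
    exact Prod.ext (Prod.ext e3 e4) e2
  let cι : (Fin d → Fin (M + 1)) × El d r → ℝ := fun i => c ((gr i.1, 0), i.2)
  have hcι : ∀ q ∈ A0, cι (φ q) = c q := by
    intro q hq
    have h1 := Finset.mem_filter.1 hq
    have e : ((gr (pt M q.1.1), (0 : Fin 2)), q.2) = q :=
      Prod.ext (Prod.ext (gr_pt (hgrid q h1.1)) h1.2.symm) rfl
    show c ((gr (pt M q.1.1), 0), q.2) = c q
    rw [e]
  let B : Finset (Fin d → ℝ) := A1.image fun q => gf q.1.1
  let c' : (Fin d → ℝ) → ℝ := fun b => ∑ q ∈ A1.filter (fun q => gf q.1.1 = b), c q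
  have hBsum : ∑ b ∈ B, c' b • b = ∑ q ∈ A1, c q • gf q.1.1 := by
    rw [← Finset.sum_fiberwise_of_maps_to (s := A1) (t := B) (g := fun q => gf q.1.1)
      (fun q hq => Finset.mem_image_of_mem _ hq)]
    refine Finset.sum_congr rfl fun b _ => ?_
    show (∑ q ∈ A1.filter (fun q => gf q.1.1 = b), c q) • b = _
    rw [Finset.sum_smul]
    refine Finset.sum_congr rfl fun q hq => ?_
    rw [(Finset.mem_filter.1 hq).2]
  have hAsum : ∑ i ∈ A0.image φ, cι i • u0 i = ∑ q ∈ A0, c q • u0 (φ q) := by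
    rw [Finset.sum_image hφ]
    refine Finset.sum_congr rfl fun q hq => ?_
    rw [hcι q hq]
  have hsplit : ∑ q ∈ A0, c q • u0 (φ q) + ∑ q ∈ A1, c q • gf q.1.1 = 0 := by
    rw [← hsum, ← Finset.sum_filter_add_sum_filter_not A (fun q => q.1.2 = 0)]
    congr 1
    · refine Finset.sum_congr rfl fun q hq => ?_
      have h1 := (Finset.mem_filter.1 hq).2
      simp only [uu, h1, if_true]
      rfl
    · refine Finset.sum_congr rfl fun q hq => ?_
      have h1 := (Finset.mem_filter.1 hq).2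
      simp only [uu, h1, if_false]
  have hBB : B ⊆ B0 := by
    intro b hb
    obtain ⟨q, hq, rfl⟩ := Finset.mem_image.1 hb
    have h1 := Finset.mem_filter.1 hq
    have := hB0 (pt M q.1.1)
    rwa [gr_pt (hgrid q h1.1)] at this
  have hkey := hu0 (A0.image φ) B hBB (by
    have h1 : (A0.image φ).card ≤ A0.card := Finset.card_image_le
    have h2 : B.card ≤ A1.card := Finset.card_image_le
    omega) cι c' (by rw [hAsum, hBsum, hsplit])
  have hzero : ∀ q ∈ A0, c q = 0 := by
    intro q hq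
    rw [← hcι q hq]
    exact hkey _ (Finset.mem_image_of_mem _ hq)
  have h1 : ∑ q ∈ A1, c q = 1 := by
    rw [← hc1, ← Finset.sum_filter_add_sum_filter_not A (fun q => q.1.2 = 0)]
    rw [Finset.sum_eq_zero hzero, zero_add]
  have h2 : ∑ q ∈ A1, c q • gf q.1.1 = 0 := by
    rw [← hsplit, Finset.sum_eq_zero (s := A0) fun q hq => by rw [hzero q hq, zero_smul], zero_add]
  refine (hX d hd).2.1 (corner x) σ (A1.image fun q => q.1.1) ?_ ?_ ?_
  · intro y hy
    obtain ⟨q, hq, rfl⟩ := Finset.mem_image.1 hy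
    exact hl _ (hA q (Finset.mem_filter.1 hq).1)
  · exact Finset.card_image_le.trans (by omega)
  · rw [← h2]
    refine (convex_convexHull ℝ _).sum_mem (fun q hq => hc0 q (Finset.mem_filter.1 hq).1) h1
      fun q hq => subset_convexHull ℝ _ ?_
    exact ⟨q.1.1, Finset.mem_coe.2 (Finset.mem_image_of_mem _ hq), rfl⟩

theorem ctr_pos (k : Fin d) : 0 < ctr d k := by
  have : ((k : ℕ) : ℝ) < d := by exact_mod_cast k.2
  unfold ctr
  have h1 : (0 : ℝ) < (d : ℝ) - (k : ℕ) := by linarith
  positivity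

theorem ctr_lt (k : Fin d) : ctr d k < 1 := by
  have h0 : (0 : ℝ) ≤ (k : ℕ) := by positivity
  unfold ctr
  rw [div_lt_one (by positivity)]
  linarith

theorem not_dvd {r n : ℕ} (hr : (r + 1).Prime) {ε : ℤ} (hε : ε = 1 ∨ ε = -1) :
    ¬ ((r + 1 : ℕ) : ℤ) ∣ ε * ((r.factorial : ℤ)) ^ n := by
  intro h
  have h1 : ((r + 1 : ℕ) : ℤ) ∣ ((r.factorial : ℤ)) ^ n := by
    rcases hε with rfl | rfl
    · simpa using h
    · rw [neg_one_mul, dvd_neg] at h
      exact h
  have h2 : (r + 1) ∣ r.factorial ^ n := by exact_mod_cast h1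
  have h3 := hr.dvd_of_dvd_pow h2
  have h4 := (hr.dvd_factorial).1 h3
  omega

theorem appr : BDRY → HOM → SIDE → EVAL0 → EVAL1 → GRX → GRE → GP → FIND → PATHS → APPR := by
  classical
  intro hBD hHOM hSIDE hEV0 hEV1 hX hE hGP hF hP d r hd hr hpr M hM v hv δ hδ
  have : Nonempty (Fin d) := ⟨⟨0, hd⟩⟩
  -- the size of the perturbation
  obtain ⟨η, hη, hη2⟩ := exists_small
    (fun i : (Fin d → Fin (M + 1)) × El d r × Fin d =>
      if gr i.1 i.2.2 = 0 ∨ gr i.1 i.2.2 = M then |v (gr i.1) i.2.1 i.2.2| else 1) (by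
    rintro ⟨p, e, k⟩
    dsimp only
    have hp : ∀ k', 0 ≤ gr p k' ∧ gr p k' ≤ M := by
      intro k'
      have : (p k' : ℕ) ≤ M := Nat.le_of_lt_succ (p k').2
      exact ⟨by simp only [gr]; positivity, by simp only [gr]; exact_mod_cast this⟩
    split_ifs with h
    · rcases h with h | h
      · exact abs_pos.2 ((hv (gr p) k e hp).1 h).ne'
      · exact abs_pos.2 ((hv (gr p) k e hp).2 h).ne
    · exact one_pos)
  set δ' := min δ η with hδ'
  have hδ'0 : 0 < δ' := lt_min hδ hη
  obtain ⟨u0, hu1, hu2⟩ := hGP d ((Fin d → Fin (M + 1)) × El d r) (fun i => v (gr i.1) i.2)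
    (Finset.univ.image fun p : Fin d → Fin (M + 1) => gf (gr p)) δ' hδ'0
  set u := uu M u0 with hu
  -- first hypothesis of HOM
  have H1 : ∀ (x : Fin d → Fin M) (σ : Equiv.Perm (Fin d)),
      ((r + 1 : ℕ) : ℤ) ∣ Pf [0, 1] (bdf (cc u)) (frd (corner x) σ) := by
    intro x σ
    refine hP _ _ _ _ _ _ fun l hl1 hl2 hl3 => ?_
    obtain ⟨g1, g2, -⟩ := hE d (corner x) σ
    have hnd := hl3 g2 (by decide)
    refine hBD d r _ u l hr hnd ?_ ?_
    · rw [g1] at hl2
      simp only [List.length_cons, List.length_nil] at hl2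
      omega
    · exact gen_frd hX hE hd x σ u0 _
        (fun p => Finset.mem_image_of_mem (fun p : Fin d → Fin (M + 1) => gf (gr p))
          (Finset.mem_univ p)) hu2 l fun q hq => (hl1 q hq).1
  -- second hypothesis of HOM
  have H2 : ∀ Y : List (Fin d → ℤ), Y.length = d → InGrid M Y → InFacet M Y →
      Pf [0, 1] (cc u) Y = 0 := by
    intro Y _ hYg hYf
    have hzero : (0 : ℤ) ∣ Pf [0, 1] (cc u) Y := by
      refine hP _ _ _ _ _ _ fun l hl1 _ _ => ?_
      rw [zero_dvd_iff]
      obtain ⟨k, hk⟩ := hYf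
      -- values on the facet
      have hval : ∀ y ∈ Y, ∀ e, |u0 (pt M y, e) k - v y e k| < δ' := by
        intro y hy e
        have := hu1 (pt M y, e) k
        dsimp only at this
        rwa [gr_pt (hYg y hy)] at this
      have habs : ∀ y ∈ Y, (y k = 0 ∨ y k = M) → ∀ e, δ' ≤ |v y e k| := by
        intro y hy hyk e
        have := hη2 (pt M y, e, k)
        dsimp only at this
        rw [gr_pt (hYg y hy), if_pos hyk] at this
        exact (min_le_right _ _).trans this
      rcases hk with hk | hk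
      · refine hSIDE d r _ u l k 1 fun q hq e => ?_
        obtain ⟨hq1, hq2⟩ := hl1 q hq
        rw [one_mul]
        simp only [hu, uu]
        split_ifs with h
        · have h1 := hval q.1 hq1 e
          have h2 := habs q.1 hq1 (Or.inl (hk _ hq1)) e
          have h3 := (hv q.1 k e (hYg _ hq1)).1 (hk _ hq1)
          rw [abs_of_pos h3] at h2
          have h4 := (abs_lt.1 h1).1
          linarith
        · simp only [gf, hk _ hq1]
          have := ctr_pos k
          simpa using this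
      · refine hSIDE d r _ u l k (-1) fun q hq e => ?_
        obtain ⟨hq1, hq2⟩ := hl1 q hq
        simp only [hu, uu]
        split_ifs with h
        · have h1 := hval q.1 hq1 e
          have h2 := habs q.1 hq1 (Or.inr (hk _ hq1)) e
          have h3 := (hv q.1 k e (hYg _ hq1)).2 (hk _ hq1)
          rw [abs_of_neg h3] at h2
          have h4 := (abs_lt.1 h1).2
          linarith
        · simp only [gf, hk _ hq1]
          have h5 := ctr_lt k
          have h6 : (1 : ℝ) ≤ M := by exact_mod_cast hM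
          have h7 : (((M : ℕ) : ℤ) : ℝ) = (M : ℝ) := by simp
          rw [h7]
          linarith
    exact zero_dvd_iff.1 hzero
  have hdvd := hHOM d M ((r + 1 : ℕ) : ℤ) (cc u) hd H1 H2
  -- the value for `t = 1`
  obtain ⟨hX1, -, x0, hx0, hfrd0, hpos0, hind0⟩ := hX d hd
  have hval1 : ∃ ε : ℤ, (ε = 1 ∨ ε = -1) ∧
      Gr d M (fun X => cc u (X.map fun x => (x, (1 : Fin 2)))) =
        ε * ((r.factorial : ℤ)) ^ (d + 1) := by
    have hu1' : ∀ (y : Fin d → ℤ) (e : El d r), u (y, 1) e = gf y := by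
      intro y e
      simp [hu, uu]
    obtain ⟨ε, hε, hval⟩ := hEV1 d r ((Fin d → ℤ) × Fin 2) u (fun q => gf q.1)
      (fun s => (x0 s, 1)) hr (fun s t h => hx0 (congrArg Prod.fst h))
      (fun s e => hu1' _ _) hpos0 hind0
    refine ⟨ε, hε, ?_⟩
    unfold Gr
    beta_reduce
    rw [Finset.sum_eq_single (fun _ => (⟨0, hM⟩ : Fin M))]
    · rw [Finset.sum_eq_single (1 : Equiv.Perm (Fin d))]
      · have hc : corner (fun _ : Fin d => (⟨0, hM⟩ : Fin M)) = 0 := by
          funext k
          simp [corner]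
        rw [hc, hfrd0, List.map_ofFn]
        simp only [Equiv.Perm.sign_one, Units.val_one, one_mul]
        exact hval
      · intro σ _ hσ
        rw [hEV0 d r _ u (fun q => gf q.1) _ _ _, mul_zero]
        · intro q hq e
          obtain ⟨y, hy, rfl⟩ := List.mem_map.1 hq
          exact hu1' _ _
        · intro h0
          refine hσ (hX1 M (fun _ => ⟨0, hM⟩) σ ?_).2
          have hset : (fun q : (Fin d → ℤ) × Fin 2 => gf q.1) ''
              {q | q ∈ (frd (corner fun _ : Fin d => (⟨0, hM⟩ : Fin M)) σ).map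
                fun x => (x, (1 : Fin 2))} =
              gf '' {y | y ∈ frd (corner fun _ : Fin d => (⟨0, hM⟩ : Fin M)) σ} := by
            ext w
            constructor
            · rintro ⟨q, hq, rfl⟩
              obtain ⟨y, hy, rfl⟩ := List.mem_map.1 hq
              exact ⟨y, hy, rfl⟩
            · rintro ⟨y, hy, rfl⟩
              exact ⟨(y, 1), List.mem_map.2 ⟨y, hy, rfl⟩, rfl⟩
          rwa [hset] at h0
      · intro h
        exact absurd (Finset.mem_univ _) h
    · intro x _ hx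
      refine Finset.sum_eq_zero fun σ _ => ?_
      rw [hEV0 d r _ u (fun q => gf q.1) _ _ _, mul_zero]
      · intro q hq e
        obtain ⟨y, hy, rfl⟩ := List.mem_map.1 hq
        exact hu1' _ _
      · intro h0
        refine hx (funext fun k => Fin.ext ((hX1 M x σ ?_).1 k))
        have hset : (fun q : (Fin d → ℤ) × Fin 2 => gf q.1) ''
            {q | q ∈ (frd (corner x) σ).map fun x => (x, (1 : Fin 2))} =
            gf '' {y | y ∈ frd (corner x) σ} := by
          ext w
          constructor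
          · rintro ⟨q, hq, rfl⟩
            obtain ⟨y, hy, rfl⟩ := List.mem_map.1 hq
            exact ⟨y, hy, rfl⟩
          · rintro ⟨y, hy, rfl⟩
            exact ⟨(y, 1), List.mem_map.2 ⟨y, hy, rfl⟩, rfl⟩
        rwa [hset] at h0
    · intro h
      exact absurd (Finset.mem_univ _) h
  obtain ⟨ε, hε, hval1⟩ := hval1
  have hne : Gr d M (fun X => cc u (X.map fun x => (x, (0 : Fin 2)))) ≠ 0 := by
    intro h0
    rw [h0, hval1, sub_zero] at hdvd
    exact not_dvd hpr hε hdvd
  obtain ⟨x, σ, hne2⟩ : ∃ (x : Fin d → Fin M) (σ : Equiv.Perm (Fin d)),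
      cc u ((frd (corner x) σ).map fun x => (x, (0 : Fin 2))) ≠ 0 := by
    by_contra hcon
    push Not at hcon
    refine hne ?_
    unfold Gr
    beta_reduce
    refine Finset.sum_eq_zero fun x _ => Finset.sum_eq_zero fun σ _ => ?_
    rw [hcon x σ, mul_zero]
  obtain ⟨g1, g2, -⟩ := hE d (corner x) σ
  obtain ⟨π, c, hc0, -, hc⟩ := hF d r _ u _ (g2.map fun a b h => congrArg Prod.fst h) hne2
  refine ⟨x, σ, π, fun y e => c (y, 0) e, fun y e => hc0 _ _, fun j => ?_⟩
  obtain ⟨hc1, hc2⟩ := hc j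
  set l := frd (corner x) σ with hl
  set S := l.toFinset with hS
  have hu0' : ∀ (y : Fin d → ℤ) (e : El d r), u (y, 0) e = u0 (pt M y, e) := by
    intro y e
    simp [hu, uu]
  have e1 : ∑ e ∈ univ.filter (fun e => part π e = j), ∑ y ∈ S, c (y, 0) e = 1 := by
    rw [← hc1]
    refine Finset.sum_congr rfl fun e _ => ?_
    rw [List.sum_toFinset _ g2, List.map_map]
    simp only [Function.comp_def]
  have e2 : ∑ e ∈ univ.filter (fun e => part π e = j),
      ∑ y ∈ S, c (y, 0) e • u0 (pt M y, e) = 0 := by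
    rw [← hc2]
    refine Finset.sum_congr rfl fun e _ => ?_
    rw [List.sum_toFinset _ g2, List.map_map]
    simp only [Function.comp_def, hu0']
  refine ⟨?_, fun k => ?_⟩
  · rw [← e1]
    refine Finset.sum_congr rfl fun e _ => ?_
    rw [List.sum_toFinset _ g2]
  · have e3 : ∑ e ∈ univ.filter (fun e => part π e = j),
        (l.map fun y => c (y, 0) e • v y e).sum =
        ∑ e ∈ univ.filter (fun e => part π e = j), ∑ y ∈ S, c (y, 0) e • v y e := by
      refine Finset.sum_congr rfl fun e _ => ?_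
      rw [List.sum_toFinset _ g2]
    rw [e3]
    have e4 : (∑ e ∈ univ.filter (fun e => part π e = j), ∑ y ∈ S, c (y, 0) e • v y e) k =
        ∑ e ∈ univ.filter (fun e => part π e = j), ∑ y ∈ S,
          c (y, 0) e * (v y e k - u0 (pt M y, e) k) := by
      have e5 := congrFun e2 k
      simp only [Finset.sum_apply, Pi.smul_apply, smul_eq_mul, Pi.zero_apply] at e5 ⊢
      simp only [mul_sub, Finset.sum_sub_distrib]
      rw [e5, sub_zero]
    rw [e4]
    calc |∑ e ∈ univ.filter (fun e => part π e = j), ∑ y ∈ S,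
          c (y, 0) e * (v y e k - u0 (pt M y, e) k)|
        ≤ ∑ e ∈ univ.filter (fun e => part π e = j), ∑ y ∈ S, c (y, 0) e * δ' := by
          refine (Finset.abs_sum_le_sum_abs _ _).trans (Finset.sum_le_sum fun e _ => ?_)
          refine (Finset.abs_sum_le_sum_abs _ _).trans (Finset.sum_le_sum fun y hy => ?_)
          rw [abs_mul, abs_of_nonneg (hc0 _ _)]
          refine mul_le_mul_of_nonneg_left ?_ (hc0 _ _)
          have h1 := hu1 (pt M y, e) k
          dsimp only at h1
          rw [gr_pt (grid_frd hE x σ (List.mem_toFinset.1 hy))] at h1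
          rw [abs_sub_comm]
          exact h1.le
      _ = δ' := by
          simp only [← Finset.sum_mul]
          rw [e1, one_mul]
      _ ≤ δ := min_le_left _ _

end Pool.Agent.Helper67.Ct
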